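import Pool.Agent.Helper96.SP.RSEPA
import Pool.Agent.Helper96.SP.QWORDS

/-!
# EN, package LAST: an operator on the last position
-/

open CategoryTheory MonoidalCategory Limits BraidedCategory

universe u v w

namespace Pool.Agent.Helper59.EN

open Pool.Agent.TH90.AB Pool.Agent.TH90.Kim Pool.Agent.Helper96.Kim Pool.Agent.Helper96.SP

set_option linter.unusedSectionVars false

variable {𝒜 : Type u} [Category.{v} 𝒜] [MonoidalCategory 𝒜] [SymmetricCategory 𝒜]
  [Preadditive 𝒜] [MonoidalPreadditive 𝒜] [Linear ℚ 𝒜] [MonoidalLinear ℚ 𝒜]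
  {K : Type w} [Field K] [CharZero K] {F : Realisation 𝒜 K}

section

variable [hdual : ∀ X : 𝒜, HasRightDual X] {M : 𝒜} {ι : Type} [Fintype ι] [DecidableEq ι]

/-- Künneth with parameters. -/
theorem kunL (b : Module.Basis ι K (F.V M)) {X Y : 𝒜} {W : Type*} [AddCommGroup W] [Module K W]
    (β : W →ₗ[K] F.V X →ₗ[K] F.V M →ₗ[K] F.V Y) :
    ∃ Φ : W →ₗ[K] F.V (X ⊗ M) →ₗ[K] F.V Y, ∀ w x m, Φ w (F.ext x m) = β w x m := by
  choose Φ hΦ using fun w => SepA.kun b (β w)
  refine ⟨{ toFun := Φ, map_add' := fun w w' => ?_, map_smul' := fun c w => ?_ }, hΦ⟩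
  · refine LinearMap.ext fun z => ?_
    obtain ⟨n, a, c, rfl⟩ := F.exists_sum z
    rw [LinearMap.add_apply, map_sum, map_sum, map_sum, ← Finset.sum_add_distrib]
    refine Finset.sum_congr rfl fun i _ => ?_
    rw [hΦ, hΦ, hΦ, _root_.map_add, LinearMap.add_apply, LinearMap.add_apply]
  · refine LinearMap.ext fun z => ?_
    obtain ⟨n, a, c', rfl⟩ := F.exists_sum z
    rw [RingHom.id_apply, LinearMap.smul_apply, map_sum, map_sum, Finset.smul_sum]
    refine Finset.sum_congr rfl fun i _ => ?_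
    rw [hΦ, hΦ, _root_.map_smul, LinearMap.smul_apply, LinearMap.smul_apply]

theorem exists_last (b : Module.Basis ι K (F.V M)) (n : ℕ) :
    ∃ Λ : (F.V M →ₗ[K] F.V M) →ₗ[K] (F.V (T M (n + 1)) →ₗ[K] F.V (T M (n + 1))),
      ∀ (x : F.V M →ₗ[K] F.V M) (v : Fin (n + 1) → F.V M), Λ x (wd F (n + 1) v) =
        wd F (n + 1) (Function.update v (Fin.last n) (x (v (Fin.last n)))) := by
  induction n with
  | zero =>
    let β : (F.V M →ₗ[K] F.V M) →ₗ[K] F.V (T M 0) →ₗ[K] F.V M →ₗ[K] F.V (T M 1) :=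
      { toFun := fun x => (F.ext (X := T M 0) (Y := M)).compl₂ x
        map_add' := fun x x' => by
          refine LinearMap.ext fun y => LinearMap.ext fun m => ?_
          exact _root_.map_add (F.ext (X := T M 0) (Y := M) y) (x m) (x' m)
        map_smul' := fun c x => by
          refine LinearMap.ext fun y => LinearMap.ext fun m => ?_
          exact _root_.map_smul (F.ext (X := T M 0) (Y := M) y) c (x m) }
    obtain ⟨Φ, hΦ⟩ := kunL b β
    refine ⟨Φ, fun x v => ?_⟩
    have h1 : Φ x (wd F 1 v) = F.ext (X := T M 0) (Y := M) F.one (x (v 0)) :=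
      hΦ x F.one (v 0)
    rw [h1]
    have h2 : (Fin.last 0) = 0 := rfl
    change _ = F.ext (X := T M 0) (Y := M) F.one
      (Function.update v (Fin.last 0) (x (v (Fin.last 0))) 0)
    rw [h2, Function.update_self]
  | succ n ih =>
    obtain ⟨Λ, hΛ⟩ := ih
    let β : (F.V M →ₗ[K] F.V M) →ₗ[K] F.V (T M (n + 1)) →ₗ[K] F.V M →ₗ[K] F.V (T M (n + 2)) :=
      { toFun := fun x => (F.ext (X := T M (n + 1)) (Y := M)) ∘ₗ Λ x
        map_add' := fun x x' => by
          refine LinearMap.ext fun y => ?_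
          rw [_root_.map_add]
          exact _root_.map_add (F.ext (X := T M (n + 1)) (Y := M)) (Λ x y) (Λ x' y)
        map_smul' := fun c x => by
          refine LinearMap.ext fun y => ?_
          rw [_root_.map_smul]
          exact _root_.map_smul (F.ext (X := T M (n + 1)) (Y := M)) c (Λ x y) }
    obtain ⟨Φ, hΦ⟩ := kunL b β
    refine ⟨Φ, fun x v => ?_⟩
    have h1 : Φ x (wd F (n + 2) v) =
        F.ext (X := T M (n + 1)) (Y := M) (Λ x (wd F (n + 1) fun j => v j.succ)) (v 0) :=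
      hΦ x (wd F (n + 1) fun j => v j.succ) (v 0)
    rw [h1, hΛ]
    change _ = F.ext (X := T M (n + 1)) (Y := M)
      (wd F (n + 1) fun j => Function.update v (Fin.last (n + 1)) (x (v (Fin.last (n + 1)))) j.succ)
      (Function.update v (Fin.last (n + 1)) (x (v (Fin.last (n + 1)))) 0)
    have h3 : (Fin.last (n + 1)) = (Fin.last n).succ := (Fin.succ_last n).symm
    rw [h3, Function.update_of_ne (Fin.succ_ne_zero (Fin.last n)).symm]
    congr 3
    funext i
    by_cases h : i = Fin.last n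
    · rw [h, Function.update_self, Function.update_self]
    · rw [Function.update_of_ne h, Function.update_of_ne (fun h' => h (Fin.succ_injective _ h'))]

end

/-- LAST. -/
theorem last [hdual : ∀ X : 𝒜, HasRightDual X] {M : 𝒜} {d : ℕ}
    (b : Module.Basis (Fin d) K (F.V M)) (n : ℕ) :
    ∃ Λ : (F.V M →ₗ[K] F.V M) →ₗ[K] (F.V (T M (n + 1)) →ₗ[K] F.V (T M (n + 1))),
      (∀ (x : F.V M →ₗ[K] F.V M) (v : Fin (n + 1) → F.V M), Λ x (wd F (n + 1) v) =
        wd F (n + 1) (Function.update v (Fin.last n) (x (v (Fin.last n))))) ∧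
      ∀ f : M ⟶ M, Λ (F.map f) = F.map (ins f (n + 1) (Fin.last n)) := by
  obtain ⟨Λ, hΛ⟩ := exists_last b n
  obtain ⟨B, hB⟩ := wd_basis F b (n + 1)
  refine ⟨Λ, hΛ, fun f => B.ext fun w => ?_⟩
  rw [hB, hΛ, wd_ins F]

end Pool.Agent.Helper59.EN
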