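import Mathlib

/-!
# EN, package POS: rational matrices
-/

namespace Pool.Agent.Helper59.EN

open Matrix

theorem trace_sq_nonneg {W : Type} [Fintype W] [DecidableEq W] (Y : Matrix W W ℚ) :
    0 ≤ (Y.transpose * Y).trace := by
  simp only [Matrix.trace, Matrix.diag_apply, Matrix.mul_apply, Matrix.transpose_apply]
  exact Finset.sum_nonneg fun i _ => Finset.sum_nonneg fun j _ => mul_self_nonneg _

theorem eq_zero_of_trace {W : Type} [Fintype W] [DecidableEq W] (Y : Matrix W W ℚ)
    (h : (Y.transpose * Y).trace = 0) : Y = 0 := by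
  simp only [Matrix.trace, Matrix.diag_apply, Matrix.mul_apply, Matrix.transpose_apply] at h
  have h1 := (Finset.sum_eq_zero_iff_of_nonneg
    (fun i _ => Finset.sum_nonneg fun j _ => mul_self_nonneg (Y j i))).1 h
  ext i j
  have h2 := (Finset.sum_eq_zero_iff_of_nonneg (fun k _ => mul_self_nonneg (Y k j))).1
    (h1 j (Finset.mem_univ j)) i (Finset.mem_univ i)
  rw [Matrix.zero_apply]
  exact mul_self_eq_zero.1 h2

/-- POS. -/
theorem pos {W H : Type} [Fintype W] [DecidableEq W] [Fintype H] (E : H → Matrix W W ℚ)
    (X : Matrix W W ℚ)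
    (h0 : (X.transpose * (∑ h, (E h).transpose * E h) * X * ∑ h, (E h).transpose * E h).trace = 0)
    (h h' : H) : E h * X * (E h').transpose = 0 := by
  have e1 : (X.transpose * (∑ h, (E h).transpose * E h) * X * ∑ h, (E h).transpose * E h).trace =
      ∑ h' : H, ∑ h : H, ((E h * X * (E h').transpose).transpose *
        (E h * X * (E h').transpose)).trace := by
    rw [Matrix.mul_sum (M := X.transpose * (∑ h, (E h).transpose * E h) * X), Matrix.trace_sum]
    refine Finset.sum_congr rfl fun k' _ => ?_
    rw [Matrix.mul_sum, Matrix.sum_mul, Matrix.sum_mul, Matrix.trace_sum]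
    refine Finset.sum_congr rfl fun k _ => ?_
    rw [Matrix.transpose_mul, Matrix.transpose_mul, Matrix.transpose_transpose]
    have e2 : X.transpose * ((E k).transpose * E k) * X * ((E k').transpose * E k') =
        (X.transpose * (E k).transpose * (E k * X * (E k').transpose)) * E k' := by
      simp only [Matrix.mul_assoc]
    rw [e2, Matrix.trace_mul_comm]
    simp only [Matrix.mul_assoc]
  rw [e1] at h0
  have h1 := (Finset.sum_eq_zero_iff_of_nonneg
    (fun i _ => Finset.sum_nonneg fun j _ => trace_sq_nonneg _)).1 h0 h' (Finset.mem_univ h')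
  have h2 := (Finset.sum_eq_zero_iff_of_nonneg (fun j _ => trace_sq_nonneg _)).1 h1 h
    (Finset.mem_univ h)
  exact eq_zero_of_trace _ h2

end Pool.Agent.Helper59.EN
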